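import Mathlib

set_option autoImplicit false

/-!
# Randić index plus independence number

The complete bipartite graph with parts of sizes `2` and `n - 2` violates the inequality
`R + α ≤ n - 1 + √(n - 1)` for every `n ≥ 11`.
-/

namespace Pool.Agent.Results.MP_e31007_co.RandicIndependence

open SimpleGraph

/-- The Randić index: the sum over all edges `uv` of `1 / √(d_u d_v)`. -/
noncomputable def randicIndex {V : Type} [Fintype V] [DecidableEq V] (G : SimpleGraph V)
    [DecidableRel G.Adj] : ℝ :=
  ∑ e ∈ G.edgeFinset,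
    Sym2.lift ⟨fun u v => 1 / √((G.degree u : ℝ) * (G.degree v : ℝ)), fun u v => by
      show 1 / √((G.degree u : ℝ) * (G.degree v : ℝ)) = 1 / √((G.degree v : ℝ) * (G.degree u : ℝ))
      rw [mul_comm]⟩ e

/-- For every `n ≥ 11` there is a connected graph `G` on `n` vertices with
`R(G) + α(G) > n - 1 + √(n - 1)`. -/
theorem result : ∀ n : ℕ, 11 ≤ n →
    ∃ (V : Type) (_ : Fintype V) (_ : DecidableEq V) (G : SimpleGraph V)
      (_ : DecidableRel G.Adj), Fintype.card V = n ∧ G.Connected ∧
      (n : ℝ) - 1 + √((n : ℝ) - 1) < randicIndex G + (G.indepNum : ℝ) := by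
  intro n hn
  obtain ⟨m, rfl⟩ : ∃ m, n = m + 2 := ⟨n - 2, by omega⟩
  have hm : 9 ≤ m := by omega
  let G : SimpleGraph (Fin 2 ⊕ Fin m) := completeBipartiteGraph (Fin 2) (Fin m)
  have hG : ∀ a b, G.Adj a b ↔ (a.isLeft ∧ b.isRight ∨ a.isRight ∧ b.isLeft) := fun a b => Iff.rfl
  let hdec : DecidableRel G.Adj := fun a b => by
    show Decidable (a.isLeft ∧ b.isRight ∨ a.isRight ∧ b.isLeft)
    infer_instance
  refine ⟨Fin 2 ⊕ Fin m, inferInstance, inferInstance, G, hdec, by simp; omega, ?_, ?_⟩
  · -- connected
    have hadj : ∀ (i : Fin 2) (j : Fin m), G.Adj (Sum.inl i) (Sum.inr j) := by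
      intro i j
      rw [hG]
      simp
    have hr : ∀ a, G.Reachable (Sum.inl 0) a := by
      intro a
      rcases a with i | j
      · exact (hadj 0 ⟨0, by omega⟩).reachable.trans (hadj i ⟨0, by omega⟩).symm.reachable
      · exact (hadj 0 j).reachable
    have : Nonempty (Fin 2 ⊕ Fin m) := ⟨Sum.inl 0⟩
    exact ⟨fun a b => (hr a).symm.trans (hr b)⟩
  · -- the inequality
    have hdl : ∀ i : Fin 2, G.degree (Sum.inl i) = m := by
      intro i
      have h : G.neighborFinset (Sum.inl i) = Finset.univ.map Function.Embedding.inr := by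
        ext a
        rw [mem_neighborFinset, hG]
        rcases a with a | a <;> simp
      rw [← card_neighborFinset_eq_degree, h]
      simp
    have hdr : ∀ j : Fin m, G.degree (Sum.inr j) = 2 := by
      intro j
      have h : G.neighborFinset (Sum.inr j) = Finset.univ.map Function.Embedding.inl := by
        ext a
        rw [mem_neighborFinset, hG]
        rcases a with a | a <;> simp
      rw [← card_neighborFinset_eq_degree, h]
      simp
    have hcard : 2 * (G.edgeFinset.card) = 2 * (2 * m) := by
      rw [← G.sum_degrees_eq_twice_card_edges, Fintype.sum_sum_type]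
      simp only [hdl, hdr]
      simp
      ring
    have hcard' : G.edgeFinset.card = 2 * m := by omega
    have hR : randicIndex G = (2 * m : ℝ) * (1 / √(2 * m : ℝ)) := by
      unfold randicIndex
      have hc : ∀ e ∈ G.edgeFinset, Sym2.lift ⟨fun u v => 1 / √((G.degree u : ℝ) * (G.degree v : ℝ)),
          fun u v => by
            show 1 / √((G.degree u : ℝ) * (G.degree v : ℝ)) = 1 / √((G.degree v : ℝ) * (G.degree u : ℝ))
            rw [mul_comm]⟩ e = 1 / √(2 * m : ℝ) := by
        intro e he
        induction e using Sym2.ind with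
        | _ u v =>
          rw [mem_edgeFinset, mem_edgeSet, hG] at he
          rw [Sym2.lift_mk]
          rcases u with i | i <;> rcases v with j | j
          · simp at he
          · simp only [hdl, hdr]
            congr 2
            push_cast
            ring
          · simp only [hdl, hdr]
            congr 2
          · simp at he
      rw [Finset.sum_congr rfl hc, Finset.sum_const, hcard', nsmul_eq_mul]
      push_cast
      ring
    have hR2 : randicIndex G = √(2 * m : ℝ) := by
      rw [hR]
      have h0 : (0 : ℝ) < 2 * m := by positivity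
      have h1 : √(2 * m : ℝ) ≠ 0 := (Real.sqrt_pos.2 h0).ne'
      have h2 : √(2 * m : ℝ) * √(2 * m : ℝ) = 2 * m := Real.mul_self_sqrt h0.le
      rw [mul_one_div, div_eq_iff h1, h2]
    have hα : (m : ℝ) ≤ (G.indepNum : ℝ) := by
      have hI : G.IsIndepSet ((Finset.univ.map Function.Embedding.inr :
          Finset (Fin 2 ⊕ Fin m)) : Set (Fin 2 ⊕ Fin m)) := by
        intro a ha b hb _
        simp only [Finset.coe_map, Finset.coe_univ, Set.image_univ, Set.mem_range] at ha hb
        obtain ⟨i, rfl⟩ := ha
        obtain ⟨j, rfl⟩ := hb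
        rw [hG]
        simp
      have h := hI.card_le_indepNum
      rw [Finset.card_map, Finset.card_univ, Fintype.card_fin] at h
      exact_mod_cast h
    have hm' : (9 : ℝ) ≤ m := by exact_mod_cast hm
    have key : 1 + √((m : ℝ) + 1) < √(2 * m : ℝ) := by
      apply Real.lt_sqrt_of_sq_lt
      have h0 : (0 : ℝ) ≤ (m : ℝ) + 1 := by linarith
      have h1 : √((m : ℝ) + 1) * √((m : ℝ) + 1) = (m : ℝ) + 1 := Real.mul_self_sqrt h0
      have h2 : 2 * √((m : ℝ) + 1) < (m : ℝ) - 2 := by
        have h3 : √((m : ℝ) + 1) < ((m : ℝ) - 2) / 2 := by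
          rw [Real.sqrt_lt' (by linarith)]
          nlinarith
        linarith
      nlinarith
    rw [hR2]
    push_cast
    have e : (m : ℝ) + 2 - 1 = (m : ℝ) + 1 := by ring
    rw [e]
    linarith

end Pool.Agent.Results.MP_e31007_co.RandicIndependence
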